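import Pool.Agent.Q161.SX.Stm
import Pool.Agent.W327.SecC.PartB1
import Pool.Agent.W240.S3.ZLoc
import Pool.Agent.Y536.PS.CONJ

/-! # Project SX (helper161), jobs PLC and CNJ (helper150) -/

set_option autoImplicit false

namespace Pool.Agent.Q150.SX

open Polynomial NumberField
open Pool.Agent.Q161.SX

theorem plc : S_PLC := by
  intro A _ _ _ l hl
  obtain ⟨A0, _, _, _, _, hfin, hfrac, hirr, hmem, happ⟩ := Pool.Agent.W240.S3.zloc l hl
  let _ : Algebra A0 A := ((algebraMap ℚ A).comp (algebraMap A0 ℚ)).toAlgebra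
  have hst : IsScalarTower A0 ℚ A := IsScalarTower.of_algebraMap_eq' rfl
  obtain ⟨V, φ, h1, h2, h3, h4⟩ := _root_.W327.SecC.partB1 A0 ℚ A
  have hcard : Nat.card (IsLocalRing.ResidueField A0) = l := by
    obtain ⟨f, hf⟩ : ∃ f : ℤ →+* IsLocalRing.ResidueField A0, f = Int.castRingHom _ := ⟨_, rfl⟩
    have hf1 : ∀ n : ℤ, f n = IsLocalRing.residue A0 (n : A0) := by
      intro n; rw [hf, eq_intCast, map_intCast]
    have hsurj : Function.Surjective f := by
      intro y
      obtain ⟨a, rfl⟩ := IsLocalRing.residue_surjective y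
      obtain ⟨n, hn⟩ := happ a
      refine ⟨n, ?_⟩
      rw [hf1]
      have h5 : IsLocalRing.residue A0 (a - n) = 0 := (IsLocalRing.residue_eq_zero_iff _).2 hn
      rw [map_sub] at h5
      exact (sub_eq_zero.1 h5).symm
    have hker : RingHom.ker f = Ideal.span {(l : ℤ)} := by
      ext n
      rw [RingHom.mem_ker, hf1, IsLocalRing.residue_eq_zero_iff, hmem, Ideal.mem_span_singleton]
    rw [← Nat.card_congr (RingHom.quotientKerEquivOfSurjective hsurj).toEquiv, hker,
      Nat.card_congr (Int.quotientSpanNatEquivZMod l).toEquiv, Nat.card_zmod]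
  rw [hcard] at h4
  refine ⟨V, φ, ?_, h3, h4⟩
  have h5 : ((l : ℤ) : A0) ∈ IsLocalRing.maximalIdeal A0 := (hmem l).2 dvd_rfl
  have h6 := h2 _ h5
  rw [map_intCast] at h6
  exact_mod_cast h6

/-- the trace of a valuation ring above `l` on the rational numbers -/
theorem mem_rat {A : Type} [Field A] [Algebra ℚ A] {l : ℕ} (hl : l.Prime)
    {V : ValuationSubring A} (hV : (l : A) ∈ V.nonunits) (q : ℚ) :
    algebraMap ℚ A q ∈ V ↔ ¬ l ∣ q.den := by
  have hc : CharZero A := algebraRat.charZero A
  have hint : ∀ n : ℤ, V.valuation (n : A) ≤ 1 := by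
    intro n
    rw [ValuationSubring.valuation_le_one_iff]
    exact intCast_mem V n
  have hlt : V.valuation (l : A) < 1 := (ValuationSubring.mem_nonunits_iff _).1 hV
  have hunit : ∀ n : ℤ, ¬ (l : ℤ) ∣ n → V.valuation (n : A) = 1 := by
    intro n hn
    apply le_antisymm (hint n)
    by_contra hcon
    push Not at hcon
    have hco : IsCoprime (l : ℤ) n :=
      (Nat.prime_iff_prime_int.1 hl).coprime_iff_not_dvd.2 hn
    obtain ⟨u, v, huv⟩ := hco
    have h1 : ((u : A) * (l : A) + (v : A) * (n : A)) = 1 := by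
      have := congrArg (fun z : ℤ => (z : A)) huv
      push_cast at this
      exact this
    have h2 : V.valuation ((u : A) * (l : A) + (v : A) * (n : A)) < 1 := by
      apply Valuation.map_add_lt
      · rw [map_mul]
        exact (mul_le_of_le_one_left' (hint u)).trans_lt hlt
      · rw [map_mul]
        exact (mul_le_of_le_one_left' (hint v)).trans_lt hcon
    rw [h1, map_one] at h2
    exact lt_irrefl _ h2
  have hq : algebraMap ℚ A q = (q.num : A) / (q.den : A) := by
    rw [eq_ratCast, Rat.cast_def]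
  rw [← ValuationSubring.valuation_le_one_iff, hq, map_div₀]
  by_cases hd : l ∣ q.den
  · have hn : ¬ (l : ℤ) ∣ q.num := by
      intro h
      have h1 : l ∣ q.num.natAbs := Int.natCast_dvd.1 h
      have h2 := Nat.dvd_gcd h1 hd
      rw [q.reduced] at h2
      exact hl.one_lt.ne' (Nat.dvd_one.1 h2)
    rw [hunit _ hn]
    constructor
    · intro h
      exfalso
      obtain ⟨m, hm⟩ := hd
      have h3 : V.valuation (q.den : A) < 1 := by
        rw [hm]
        push_cast
        rw [map_mul]
        exact (mul_le_of_le_one_right' (by exact_mod_cast hint m)).trans_lt hlt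
      have h4 : V.valuation (q.den : A) ≠ 0 := by
        intro h5
        rw [h5] at h
        have h6 : (q.den : A) = 0 := (map_eq_zero _).1 h5
        have h7 := hq
        have : (q.den : A) ≠ 0 := by exact_mod_cast q.den_nz
        exact this h6
      have h5 : 1 ≤ V.valuation (q.den : A) := by
        rwa [div_le_one₀ (zero_lt_iff.2 h4)] at h
      exact absurd h3 (not_lt.2 h5)
    · intro h; exact absurd hd h
  · have h1 := hunit (q.den : ℤ) (fun h => hd (by exact_mod_cast h))
    have h2 : V.valuation (q.den : A) = 1 := by exact_mod_cast h1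
    rw [h2, div_one]
    exact ⟨fun _ => hd, fun _ => hint _⟩

theorem cnj : S_CNJ := by
  intro A _ _ _ l hl V V' hV hV'
  have : Normal ℚ A := IsAlgClosure.normal ℚ A
  have h1 : V'.comap (algebraMap ℚ A) = V.comap (algebraMap ℚ A) := by
    ext q
    rw [ValuationSubring.mem_comap, ValuationSubring.mem_comap, mem_rat hl hV, mem_rat hl hV']
  obtain ⟨γ, hγ⟩ := Pool.Agent.Y536.PS.conj ℚ A V' V h1
  exact ⟨γ, fun z => (hγ z).symm⟩

end Pool.Agent.Q150.SX
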