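import Pool.Agent.Q161.SX.Stm
import Pool.Agent.W623.SecE.Gam3

/-! # Project SX (helper161), job GAM: canonical signs (helper150) -/

set_option autoImplicit false

namespace Pool.Agent.Q150.SX

open Pool.Agent.W623.SecC Pool.Agent.W623.SecE Pool.Agent.Q161.SX Pool.Agent.W623.SecC.Dat

universe u v w x

theorem sg_sq (M : Type*) [Field M] (a : ZMod 2) : sg M a = 1 ∨ sg M a = -1 := by
  rcases zmod2_cases a with rfl | rfl
  · exact Or.inl (sg_zero M)
  · exact Or.inr (sg_one M)

theorem map_sg {M : Type*} [Field M] (f : RingAut M) (a : ZMod 2) : f (sg M a) = sg M a := by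
  rcases sg_sq M a with h | h
  · rw [h, map_one]
  · rw [h, map_neg, map_one]

theorem gam : S_GAM.{u, v, w, x} := by
  intro k A M _ _ _ _ _ _ _ D Y _ _ B q hD hY
  have hthird : ∀ i j : Y, ∃ l, i ≠ l ∧ j ≠ l := by
    intro i j
    by_contra hcon
    push Not at hcon
    have h2 : (Finset.univ : Finset Y) ⊆ {i, j} := by
      intro t _
      rw [Finset.mem_insert, Finset.mem_singleton]
      by_cases h : i = t
      · exact Or.inl h.symm
      · exact Or.inr (hcon t h).symm
    have h3 := Finset.card_le_card h2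
    have h4 : ({i, j} : Finset Y).card ≤ 2 := Finset.card_le_two
    rw [Finset.card_univ] at h3
    omega
  choose t ht1 ht2 using hthird
  have hself2 : ∀ a : ZMod 2, a + a = 0 := by decide
  have hdiag : ∀ i l, i ≠ l → B.H i i l = 0 := by
    intro i l h
    have h1 : D.Par ((B.γ i + B.γ l) * (B.γ i + B.γ l)) 0 := by
      rw [← pow_two]
      exact Par.sq (add_mem (B.hγ _) (B.hγ _)) (B.add_ne h)
    rw [B.H_eq h h h1, Int.cast_zero]
  set u : Y → Y → ZMod 2 := fun i j => B.H i j (t i j) with hu
  have hu_eq : ∀ i j l, i ≠ l → j ≠ l → u i j = B.H i j l := by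
    intro i j l hi hj
    by_cases hij : i = j
    · subst hij
      rw [hdiag i l hi]
      exact hdiag i _ (ht1 i i)
    · exact B.H_indep hD hij (ht1 i j) (ht2 i j) hi hj
  have hu_self : ∀ i, u i i = 0 := fun i => hdiag i _ (ht1 i i)
  have hu_symm : ∀ i j, u i j = u j i := by
    intro i j
    rw [hu_eq j i (t i j) (ht2 i j) (ht1 i j), B.H_symm]
  have hu_coc : ∀ i j l, u i j = u i l + u j l := by
    intro i j l
    by_cases hij : i = j
    · subst hij
      rw [hu_self, hself2]
    by_cases hil : i = l
    · subst hil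
      rw [hu_self, zero_add, hu_symm]
    by_cases hjl : j = l
    · subst hjl
      rw [hu_self, add_zero]
    have h1 := B.H_coc hij hjl hil
    rw [← hu_eq i j l hil hjl, ← hu_eq j l i (Ne.symm hij) (Ne.symm hil),
      ← hu_eq i l j hij (Ne.symm hjl)] at h1
    have h2 := hself2 (u i j)
    linear_combination h1 - hself2 (u j l) - hself2 (u i l)
  have hY' : Nonempty Y := Fintype.card_pos_iff.1 (by omega)
  obtain ⟨b⟩ := hY'
  -- the signs
  have hyu : ∀ i j, B.yy i + B.yy j = u i j + u (B.π i) (B.π j) := by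
    intro i j
    by_cases hij : i = j
    · subst hij
      rw [hu_self, hu_self, hself2, add_zero]
    have h1 := B.Hφ (ht1 i j) (ht2 i j)
    rw [← hu_eq _ _ _ (fun h => ht1 i j (B.π.injective h)) (fun h => ht2 i j (B.π.injective h))]
      at h1
    rw [h1]
    change _ = u i j + (u i j + _)
    rw [← add_assoc, hself2, zero_add]
  have hconst : ∀ i, B.yy i + u i b + u (B.π i) b = B.yy b + u b b + u (B.π b) b := by
    intro i
    have h1 := hyu i b
    rw [hu_coc (B.π i) (B.π b) b] at h1
    rw [hu_self]
    linear_combination h1 - hself2 (B.yy b) + hself2 (u i b) + hself2 (u (B.π i) b)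
  set κ := B.yy b + u b b + u (B.π b) b with hκ
  have hyy : ∀ i, B.yy i = κ + u i b + u (B.π i) b := by
    intro i
    rw [← hconst i]
    linear_combination -(hself2 (u i b)) - hself2 (u (B.π i) b)
  refine ⟨fun i => sg M (u i b) * B.γ i, sg M κ, sg_sq M κ, fun i => ?_, fun i => ?_⟩
  · rcases sg_sq M (u i b) with h | h
    · left; simp only [h, one_mul]
    · right; simp only [h, neg_one_mul]
  · simp only
    rw [map_mul, map_sg, B.hyy, ← mul_assoc, ← sg_add, hyy i]
    have h1 : u i b + (κ + u i b + u (B.π i) b) = κ + u (B.π i) b := by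
      linear_combination hself2 (u i b)
    rw [h1, sg_add, mul_assoc]

end Pool.Agent.Q150.SX
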