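import Pool.Agent.Q161.SX.Stm
import Pool.Agent.W620.SC.Norm

/-! # Project SX (helper161), jobs KUM and LAM (helper150) -/

set_option autoImplicit false

namespace Pool.Agent.Q150.SX

open Polynomial NumberField IntermediateField
open Pool.Agent.W620.SC Pool.Agent.Q161.SX Pool.Agent.Q51.EL

universe u v

section gen

variable {f : ℤ[X]} {A : Type u} {M : Type v} [Field A] [Algebra ℚ A] [Field M]

theorem rt_mem (i : Rt f A) : i.1 ∈ spl f A :=
  IntermediateField.subset_adjoin ℚ _ i.2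

theorem fix_val {σ : A ≃ₐ[ℚ] A} (hσ : σ ∈ (spl f A).fixingSubgroup) {z : A} (hz : z ∈ spl f A) :
    σ z = z := (IntermediateField.mem_fixingSubgroup_iff _ _).1 hσ z hz

theorem sub_ne (S : Sec f A M) (a : A) : S.x - S.ι a ≠ 0 := fun h =>
  S.htr a (sub_eq_zero.1 h).symm

end gen

theorem kum : S_KUM.{v} := by
  intro f A M _ _ _ _ S i j
  obtain ⟨α, hα⟩ := S.hsq i.1 j.1 i.2 j.2
  have : IsGalois ℚ A := by
    have : Normal ℚ A := IsAlgClosure.normal ℚ A
    exact ⟨⟩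
  have hi := sub_ne S i.1
  have hj := sub_ne S j.1
  have hq : (S.x - S.ι i.1) / (S.x - S.ι j.1) ≠ 0 := div_ne_zero hi hj
  have hα0 : α ≠ 0 := by
    rintro rfl
    apply hq
    rw [← hα]; ring
  have hqf : ∀ σ ∈ (spl f A).fixingSubgroup,
      S.s σ ((S.x - S.ι i.1) / (S.x - S.ι j.1)) = (S.x - S.ι i.1) / (S.x - S.ι j.1) := by
    intro σ hσ
    rw [map_div₀, map_sub, map_sub, S.hx, S.hι, S.hι, fix_val hσ (rt_mem i), fix_val hσ (rt_mem j)]
  obtain ⟨E, hE1, hE2⟩ := S.cont α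
  obtain ⟨b, hb0, hb⟩ := exists_fixed_multiple S.s S.ι S.hι (spl f A).fixingSubgroup α hα0 (by
    intro σ hσ
    have h1 : (S.s σ α) ^ 2 = α ^ 2 := by rw [← map_pow, hα, hqf σ hσ]
    rcases sq_eq_sq_iff_eq_or_eq_neg.1 h1 with h | h
    · exact ⟨1, by rw [h, map_one, one_mul]⟩
    · exact ⟨-1, by rw [h, map_neg, map_one, neg_one_mul]⟩) E hE2
  have hιb : S.ι b ≠ 0 := by rwa [Ne, map_eq_zero]
  have hβ2 : (S.ι b * α) ^ 2 = S.ι (b ^ 2) * ((S.x - S.ι i.1) / (S.x - S.ι j.1)) := by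
    rw [mul_pow, hα, map_pow]
  have hbK : b ^ 2 ∈ spl f A := by
    apply mem_of_fixed
    intro σ hσ
    have h1 : S.s σ ((S.ι b * α) ^ 2) = (S.ι b * α) ^ 2 := by rw [map_pow, hb σ hσ]
    rw [hβ2, map_mul, hqf σ hσ, S.hι] at h1
    exact S.ι.injective (mul_right_cancel₀ hq h1)
  refine ⟨(b ^ 2)⁻¹, inv_mem hbK, inv_ne_zero (pow_ne_zero 2 hb0), S.ι b * α,
    mul_ne_zero hιb hα0, hb, ?_⟩
  rw [hβ2, ← mul_assoc, ← map_mul, inv_mul_cancel₀ (pow_ne_zero 2 hb0), map_one, one_mul]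

/-- the zero generates the field -/
theorem adjoin_top {f : ℤ[X]} {L : Type} [Field L] [NumberField L] {θ : L} (h : Setup f L θ) :
    Algebra.adjoin ℚ {θ} = ⊤ := by
  have hint : IsIntegral ℚ θ := Algebra.IsIntegral.isIntegral θ
  have hroot : aeval θ (f.map (Int.castRingHom ℚ)) = 0 := by
    have h1 := h.root
    rw [aeval_def, ← Polynomial.eval_map] at h1
    rw [aeval_def, Polynomial.eval₂_map, ← h1, ← Polynomial.eval_map]
    congr 1
    exact congrArg (fun r => Polynomial.map r f) (RingHom.ext_int _ _)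
  have hmin : (minpoly ℚ θ).natDegree = f.natDegree := by
    have h2 := minpoly.eq_of_irreducible h.irr hroot
    have h3 : (f.map (Int.castRingHom ℚ)).natDegree = f.natDegree :=
      Polynomial.natDegree_map_eq_of_injective (Int.castRingHom ℚ).injective_int f
    rw [← h2, Polynomial.natDegree_mul_C, h3]
    exact inv_ne_zero (Polynomial.leadingCoeff_ne_zero.2 h.irr.ne_zero)
  have h4 : ℚ⟮θ⟯ = ⊤ := (Field.primitive_element_iff_minpoly_natDegree_eq ℚ θ).2 (by
    rw [hmin, h.deg])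
  rw [← IntermediateField.adjoin_simple_toSubalgebra_of_isAlgebraic
    (Algebra.IsAlgebraic.isAlgebraic θ), h4]
  rfl

theorem J_comp {f : ℤ[X]} {L : Type} [Field L] [NumberField L] {θ : L} (h : Setup f L θ)
    {A : Type u} [Field A] [Algebra ℚ A] {J : Rt f A → (L →ₐ[ℚ] A)} (hJ : ∀ i, J i θ = i.1)
    (σ : A ≃ₐ[ℚ] A) (i : Rt f A) (z : L) : σ (J i z) = J (ra σ i) z := by
  have h1 : (σ : A →ₐ[ℚ] A).comp (J i) = J (ra σ i) := by
    apply AlgHom.ext_of_adjoin_eq_top (adjoin_top h)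
    rintro x rfl
    rw [hJ, ra_val, AlgHom.comp_apply, hJ]
    rfl
  exact DFunLike.congr_fun h1 z

theorem lam : S_LAM.{v} := by
  intro f L _ _ θ hS A M _ _ _ _ S J hJ i0 α t lam hA
  obtain ⟨β, hβ0, hβf, hβ1, hβ2⟩ := hA.ex
  have hιinj := S.ι.injective
  have hJ0 : ∀ i, J i (α : L) ≠ 0 := fun i => by
    rw [Ne, map_eq_zero]
    exact_mod_cast hA.a0
  refine ⟨fun σ i => ?_, fun σ τ h => ?_⟩
  · have h1 := congrArg (S.s σ) (hβ1 i)
    rw [map_mul, map_pow, S.hι, map_mul, map_div₀, J_comp hS hJ, J_comp hS hJ, map_div₀, map_sub,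
      map_sub, S.hx, S.hι, S.hι] at h1
    have h2 := hβ1 (ra σ i)
    have h3 := hβ1 (ra σ i0)
    have h4 := hβ2 σ i
    rw [ra_val] at h2 h3
    have hx0 := sub_ne S i0.1
    have hx1 := sub_ne S (σ i0.1)
    have hx2 := sub_ne S (σ i.1)
    -- the quotient of the equations
    have h5 : (S.x - S.ι (σ i.1)) / (S.x - S.ι (σ i0.1)) =
        (S.ι (t (ra σ i) * (J (ra σ i) (α : L) / J i0 (α : L))) * β (ra σ i) ^ 2) /
          (S.ι (t (ra σ i0) * (J (ra σ i0) (α : L) / J i0 (α : L))) * β (ra σ i0) ^ 2) := by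
      rw [h2, h3, div_div_div_cancel_right₀ hx0]
    have hβa := hβ0 (ra σ i0)
    have hβb := hβ0 (ra σ i)
    have h6 : S.s σ (β i) = S.ι (lam σ i) * β (ra σ i) / β (ra σ i0) := by
      rw [eq_div_iff hβa, h4]
    rw [h5, h6] at h1
    have n1 : S.ι (J i0 (α : L)) ≠ 0 := by rw [Ne, map_eq_zero]; exact hJ0 _
    have n2 : S.ι (J (ra σ i0) (α : L)) ≠ 0 := by rw [Ne, map_eq_zero]; exact hJ0 _
    have n3 : S.ι (J (ra σ i) (α : L)) ≠ 0 := by rw [Ne, map_eq_zero]; exact hJ0 _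
    have n4 : S.ι (t (ra σ i0)) ≠ 0 := by rw [Ne, map_eq_zero]; exact hA.t0 _
    apply hιinj
    simp only [map_mul, map_div₀, map_pow] at h1 ⊢
    field_simp at h1
    linear_combination h1
  · have hra : ∀ i, ra σ i = ra τ i := fun i => Subtype.ext (by
      rw [ra_val, ra_val]; exact h _ (rt_mem i))
    have hfix : τ⁻¹ * σ ∈ (spl f A).fixingSubgroup := by
      rw [IntermediateField.mem_fixingSubgroup_iff]
      intro z hz
      rw [AlgEquiv.mul_apply, h z hz]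
      exact τ.symm_apply_apply z
    funext i
    have h1 : S.s σ (β i) = S.s τ (β i) := by
      have e : σ = τ * (τ⁻¹ * σ) := by group
      rw [e, map_mul]
      change S.s τ (S.s (τ⁻¹ * σ) (β i)) = _
      rw [hβf i _ hfix]
    have h2 := hβ2 σ i
    have h3 := hβ2 τ i
    rw [h1, hra, hra] at h2
    rw [h3] at h2
    exact (hιinj (mul_right_cancel₀ (hβ0 _) h2)).symm

end Pool.Agent.Q150.SX
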