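import Pool.Agent.Q161.SX.Stm

/-! # Project SX (helper161), job TFN: the types are finite in number (helper150) -/

set_option autoImplicit false

namespace Pool.Agent.Q150.SX

open Polynomial NumberField IntermediateField
open Pool.Agent.Q161.SX

theorem zeros_finite {A : Type} [Field A] [CharZero A] {f : ℤ[X]} (hf : f ≠ 0) :
    {e : A | aeval e f = 0}.Finite := by
  have h1 : f.map (algebraMap ℤ A) ≠ 0 := by
    rw [Ne, Polynomial.map_eq_zero_iff (algebraMap ℤ A).injective_int]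
    exact hf
  refine (Polynomial.finite_setOfPred_isRoot h1).subset fun e he => ?_
  rw [Set.mem_ofPred_eq, IsRoot.def, Polynomial.eval_map, ← aeval_def]
  exact he

theorem sq_finite {A : Type} [Field A] (a : A) : {w : A | w ^ 2 = a}.Finite := by
  have h1 : (X ^ 2 - C a : A[X]) ≠ 0 := Polynomial.X_pow_sub_C_ne_zero (by norm_num) a
  refine (Polynomial.finite_setOfPred_isRoot h1).subset fun e he => ?_
  rw [Set.mem_ofPred_eq] at he
  rw [Set.mem_ofPred_eq, IsRoot.def, eval_sub, eval_pow, eval_X, eval_C, he, sub_self]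

theorem conj_finite {A : Type} [Field A] [Algebra ℚ A] [Algebra.IsAlgebraic ℚ A] (t : A) :
    (Set.range fun σ : A ≃ₐ[ℚ] A => σ t).Finite := by
  have hint : IsIntegral ℚ t := Algebra.IsIntegral.isIntegral t
  have h1 : (minpoly ℚ t).map (algebraMap ℚ A) ≠ 0 := by
    rw [Ne, Polynomial.map_eq_zero_iff (algebraMap ℚ A).injective]
    exact minpoly.ne_zero hint
  refine (Polynomial.finite_setOfPred_isRoot h1).subset ?_
  rintro _ ⟨σ, rfl⟩
  rw [Set.mem_ofPred_eq, IsRoot.def, Polynomial.eval_map, ← aeval_def]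
  have h2 := Polynomial.aeval_algHom_apply (σ : A →ₐ[ℚ] A) t (minpoly ℚ t)
  rw [minpoly.aeval, map_zero] at h2
  exact h2

/-- automorphisms which agree on the zeros agree on the splitting field -/
theorem agree {f : ℤ[X]} {A : Type} [Field A] [Algebra ℚ A] {σ τ : A ≃ₐ[ℚ] A}
    (h : ∀ i : Rt f A, σ i.1 = τ i.1) : ∀ z ∈ spl f A, σ z = τ z := by
  intro z hz
  unfold spl at hz
  induction hz using IntermediateField.adjoin_induction with
  | mem x hx => exact h ⟨x, hx⟩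
  | algebraMap x => rw [σ.commutes, τ.commutes]
  | add x y _ _ hx hy => rw [map_add, map_add, hx, hy]
  | inv x _ hx => rw [map_inv₀, map_inv₀, hx]
  | mul x y _ _ hx hy => rw [map_mul, map_mul, hx, hy]

theorem tfn : S_TFN := by
  intro f A _ _ _ hf i0 T hT hT0
  have hc : CharZero A := algebraRat.charZero A
  have halg : Algebra.IsAlgebraic ℚ A := IsAlgClosure.isAlgebraic
  have hz : {e : A | aeval e f = 0}.Finite := zeros_finite hf
  have hz' : Finite {e : A | aeval e f = 0} := hz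
  have hRt : Finite (Rt f A) := hz
  obtain ⟨Cn, hCn⟩ : ∃ Cn : Set A, Cn = ⋃ t ∈ T, Set.range fun σ : A ≃ₐ[ℚ] A => σ t := ⟨_, rfl⟩
  have hCf : Cn.Finite := by
    rw [hCn]
    exact hT.biUnion fun t _ => conj_finite t
  obtain ⟨W, hW⟩ : ∃ W : Set A, W = ⋃ t ∈ T, ⋃ t' ∈ T, ⋃ c ∈ Cn, {w : A | w ^ 2 = t / (c * t')} :=
    ⟨_, rfl⟩
  have hWf : W.Finite := by
    rw [hW]
    exact hT.biUnion fun t _ => hT.biUnion fun t' _ => hCf.biUnion fun c _ => sq_finite _
  have hlift : ∀ ρ : Rt f A → Rt f A, ∃ σ : A ≃ₐ[ℚ] A,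
      ∀ τ : A ≃ₐ[ℚ] A, (∀ i, ra τ i = ρ i) → ∀ z ∈ spl f A, σ z = τ z := by
    intro ρ
    by_cases h : ∃ σ : A ≃ₐ[ℚ] A, ∀ i, ra σ i = ρ i
    · obtain ⟨σ, hσ⟩ := h
      refine ⟨σ, fun τ hτ => agree fun i => ?_⟩
      have h1 := congrArg Subtype.val ((hσ i).trans (hτ i).symm)
      exact h1
    · exact ⟨1, fun τ hτ => absurd ⟨τ, hτ⟩ h⟩
  choose lift hlift using hlift
  have hfinT : ((Set.univ.pi fun _ : Rt f A => T) ×ˢ
      (Set.univ.pi fun _ : (Rt f A → Rt f A) => Set.univ.pi fun _ : Rt f A => W)).Finite :=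
    (Set.Finite.pi fun _ => hT).prod (Set.Finite.pi fun _ => Set.Finite.pi fun _ => hWf)
  refine Set.Finite.of_injOn (f := fun p : (Rt f A → A) × ((A ≃ₐ[ℚ] A) → Rt f A → A) =>
    (p.1, fun (ρ : Rt f A → Rt f A) (i : Rt f A) => p.2 (lift ρ) i)) ?_ ?_ hfinT
  · rintro p ⟨h1, h2, _⟩
    refine ⟨fun i _ => h1 i, fun ρ _ i _ => ?_⟩
    have h3 := h2 (lift ρ) i
    have n1 : lift ρ (p.1 i) ≠ 0 := by
      rw [Ne, map_eq_zero]
      intro h; exact hT0 (h ▸ h1 i)
    have n2 : p.1 (ra (lift ρ) i0) ≠ 0 := fun h => hT0 (h ▸ h1 (ra (lift ρ) i0))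
    rw [hW]
    refine Set.mem_biUnion (h1 (ra (lift ρ) i)) (Set.mem_biUnion (h1 (ra (lift ρ) i0))
      (Set.mem_biUnion (x := lift ρ (p.1 i)) ?_ ?_))
    · rw [hCn]
      exact Set.mem_biUnion (h1 i) ⟨lift ρ, rfl⟩
    · change p.2 (lift ρ) i ^ 2 = _
      rw [eq_div_iff (mul_ne_zero n1 n2), ← h3]
      ring
  · rintro p ⟨_, _, hp⟩ q ⟨_, _, hq⟩ hpq
    obtain ⟨h1, h2⟩ := Prod.mk.inj hpq
    refine Prod.ext h1 (funext fun σ => ?_)
    have h3 := hlift (fun i => ra σ i) σ (fun _ => rfl)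
    rw [← hp _ σ h3, ← hq _ σ h3]
    funext i
    exact congrFun (congrFun h2 (fun i => ra σ i)) i

end Pool.Agent.Q150.SX
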